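import Pool.Agent.H408.Iso.Final


/-!
# Isotypic Hilbert series of symmetric ideals are rational (MP_7f6900_al, Q1: proved)

Let `K` be a field of characteristic zero and `I` a nonzero homogeneous ideal of
`K[x_0, x_1, ...]` stable under all permutations of the variables.  For every partition `μ` the
multiplicity of the Specht module `V^{μ(n)}` in the `Sym(n)`-representation `[K[X_n]/I_n]_d` is
constant for large `n`, and the generating function of these stable multiplicities is a rational
function; its denominator is a product of factors `1 - t^a` and its numerator has integer
coefficients.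

How the objects of the problem are rendered (see `Pool/Agent/H408/Iso/Stmt.lean`):
* `IsSymm I`, `IsHom I`: `I` is stable under all permutations of `ℕ`, `I` is homogeneous;
* `trunc I n` is `I_n = I ∩ K[X_n]`, with `K[X_n] = MvPolynomial (Fin n) K`;
* `pieceRepT` is the representation of `Sym(n)` on `PieceT I n d = [K[X_n]/I_n]_d`;
* `spRepT K lam n` is the Specht module of `lam`, in its original realisation as the span of the
  Specht polynomials (products over the columns of a filling of Vandermonde products);
* `pad μ n` is the padded partition `μ(n) = (n - |μ| + μ_1, μ_2, ...)`;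
* `multT` is the dimension of the space of `Sym(n)`-equivariant maps `V^{μ(n)} → [K[X_n]/I_n]_d`,
  which is the multiplicity since Specht modules are absolutely irreducible in characteristic 0.

Idea of the proof.  For a proper nonzero symmetric ideal `I` let `r` be least such that
`v · Vandermonde(r + 1 fresh variables) ∈ I` for some `v ∉ I`, and put
`f = v · Vandermonde(r fresh variables)`.  On the submodule `N` of `K[X]/I` generated by the orbit
of `f` there are well defined commuting operators `e_1, ..., e_r` with
`x_j^r - e_1 x_j^{r-1} + ... ± e_r = 0` on the translates of `f` not involving `x_j`.  The stable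
multiplicity space of `K[X]/I` is `K[X]/(I + Z)`, where `Z` is spanned by the `a^* w` with `a` in
the annihilator of the stable Specht polynomial in the group algebra.  Multiplication by the
`n`-dependent polynomial `x_0^i + ... + x_{n-1}^i - (n + 1) x_n^i` stabilises there to commuting
operators `p_i`, and the image of `N` is a finitely generated module over
`K[e_1, ..., e_r, p_1, ..., p_M]`.  So its Hilbert series is rational, and one concludes by
noetherian induction over symmetric ideals (Cohen's theorem).
-/

set_option autoImplicit false

namespace Pool.Agent.Results.MP_7f6900_al.IsotypicSeriesRational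

open MvPolynomial Pool.Agent.H408.Iso

universe u

/-- **The isotypic Hilbert series of a nonzero homogeneous symmetric ideal is rational.** -/
theorem result (K : Type u) [Field K] [CharZero K] (I : Ideal (MvPolynomial ℕ K))
    (hsym : IsSymm I) (hhom : IsHom I) (hne : I ≠ ⊥) (μ : YoungDiagram) :
    ∃ c : ℕ → ℕ, (∀ d, ∀ᶠ n in Filter.atTop, multT hsym μ n d = c d) ∧
      ∃ p q : Polynomial ℤ, q.coeff 0 = 1 ∧
        (∃ A : Multiset ℕ, (∀ a ∈ A, 0 < a) ∧
          q = (A.map fun a => (1 - Polynomial.X ^ a : Polynomial ℤ)).prod) ∧
        (q : PowerSeries ℤ) * PowerSeries.mk (fun d => (c d : ℤ)) = (p : PowerSeries ℤ) := by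
  obtain ⟨c, hc, A, p, hA, hp⟩ := main hsym hhom hne μ
  exact ⟨c, hc, p, den A, den_coeff_zero hA, ⟨A, hA, rfl⟩, hp⟩

end Pool.Agent.Results.MP_7f6900_al.IsotypicSeriesRational
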